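import Pool.Agent.MNW.StmtsA
import Pool.Agent.MNT.Fin

/-!
# Squad MNW (MP_160b6c_nt), row MPW: a configuration from many torsion points
-/

set_option autoImplicit false

namespace Pool.Agent.MNW.H92

open Polynomial NumberField Pool.Agent.MNT

theorem mpw (hSPW : SpwStmt) : MpwStmt := by
  intro g m K _ _ C hC
  obtain ⟨L, _, _, _, C', x, y, hf, hM⟩ := hC
  obtain ⟨E, _, _, _, e, θ, -, hfe, hcfg⟩ := hSPW g m L C'.f hM.deg C'.sqfree x y hM.inj hM.on
    hM.ne (fun i => (tor_iff C' _ _).1 (hM.tor i))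
  refine ⟨?_, E, inferInstance, inferInstance,
    ((algebraMap L E).comp (algebraMap K L)).toAlgebra, e, θ, fun i => algebraMap L E (x i), ?_,
    hcfg⟩
  · rw [← hM.deg, hf, natDegree_map]
  · have h1 : C.f.map ((algebraMap L E).comp (algebraMap K L)) = C'.f.map (algebraMap L E) := by
      rw [hf, Polynomial.map_map]
    exact h1.trans hfe

end Pool.Agent.MNW.H92
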